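import Mathlib

/-!
# Certificates for fair partitions: the checker
-/

namespace Pool.Agent.Q230.EF

open Finset

/-- The neighbours of the vertices, as bit masks. -/
def adjm : List ℕ :=
  [0b0111010110, 0b1110010001, 0b0000010001, 0b0110000000, 0b0111000111,
   0b0110000000, 0b0000010001, 0b0100111011, 0b0010111011, 0b0000000010]

/-- Adjacency. -/
def adjB (a b : ℕ) : Bool := (adjm.getD a 0).testBit b

/-- Decision trees. `n s t A B`: compare the values of the sets with masks `s` and `t`.
`l p c`: the partition `p` with the certificates `c`. -/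
inductive Tr where
  | n (s t : ℕ) (A B : Tr) : Tr
  | l (p c : ℕ) : Tr

/-- From base `2` to base `64`. -/
def spread : ℕ → ℕ → ℕ
  | 0, _ => 0
  | f + 1, m => m % 2 + 64 * spread f (m / 2)

/-- All digits of `R` are at most those of `L`. -/
def dle : ℕ → ℕ → ℕ → Bool
  | 0, _, _ => true
  | f + 1, L, R => Nat.ble (R % 64) (L % 64) && dle f (L / 64) (R / 64)

/-- Check a nonnegative combination of the constraints in `ctx`. -/
def fark (ctx : List (ℕ × ℕ)) : ℕ → ℕ → ℕ → ℕ → Bool × ℕ
  | 0, _, _, _ => (false, 0)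
  | f + 1, L, R, c =>
    match c % 32 with
    | 0 => (dle 10 L R, c / 32)
    | k + 1 => fark ctx f (L + (ctx.getD k (0, 0)).2) (R + (ctx.getD k (0, 0)).1) (c / 32)

/-- Check a nonnegative combination, possibly with a factor. -/
def farks (ctx : List (ℕ × ℕ)) (L R c : ℕ) : Bool × ℕ :=
  bif Nat.beq (c % 32) 31 then
    match c / 32 % 8 with
    | 0 => (false, 0)
    | D + 1 => fark ctx 50 ((D + 1) * L) ((D + 1) * R) (c / 1024)
  else fark ctx 50 L R c

/-- The number with digits (base 64) the multiplicities. -/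
def pk : List ℕ → ℕ
  | [] => 0
  | a :: l => 2 ^ (6 * a) + pk l

/-- Each element of the list but the last is adjacent to a later one. -/
def ch : List ℕ → Bool
  | [] => false
  | [_] => true
  | a :: b :: l => (b :: l).any (adjB a) && ch (b :: l)

/-- The digits in base 16. -/
def toks : ℕ → ℕ → List ℕ
  | 0, _ => []
  | f + 1, p => (p % 16) :: toks f (p / 16)

/-- Cut a list at the zeros. -/
def cut : List ℕ → List ℕ → List (List ℕ)
  | _, [] => []
  | cur, 0 :: l => cur :: cut [] l
  | cur, (k + 1) :: l => cut (k :: cur) l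

/-- No repetitions, and all elements are at most `9`. -/
def nd : List ℕ → Bool
  | [] => true
  | a :: l => Nat.ble a 9 && (!(l.any (Nat.beq a)) && nd l)

/-- All conditions for one part. -/
def row (ctx : List (ℕ × ℕ)) (L : ℕ) : List (List ℕ) → ℕ → Bool × ℕ
  | [], c => (true, c)
  | Q :: Qs, c =>
    match Q.tail with
    | [] => row ctx L Qs c
    | q :: qs =>
      match farks ctx L (pk (q :: qs)) c with
      | (true, c') => row ctx L Qs c'
      | (false, _) => (false, 0)

/-- All conditions. -/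
def rows (ctx : List (ℕ × ℕ)) (Ps : List (List ℕ)) : List (List ℕ) → ℕ → Bool
  | [], _ => true
  | P :: Qs, c =>
    match row ctx (pk P) Ps c with
    | (true, c') => rows ctx Ps Qs c'
    | (false, _) => false

/-- Check a leaf. -/
def leafOK (n : ℕ) (ctx : List (ℕ × ℕ)) (Ps : List (List ℕ)) (c : ℕ) : Bool :=
  Nat.beq Ps.length n && (Ps.all ch && (nd Ps.flatten && (Nat.beq Ps.flatten.length 10 &&
    rows ctx Ps Ps c)))

/-- Check a tree. -/
def chk (n : ℕ) : List (ℕ × ℕ) → Tr → Bool
  | ctx, .n s t A B =>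
    chk n ((spread 10 s, spread 10 t) :: ctx) A && chk n ((spread 10 t, spread 10 s) :: ctx) B
  | ctx, .l p c => leafOK n ctx (cut [] (toks (10 + n) p)) c

/-- The assumptions `x 2 ≥ x 3`, `x 3 ≥ x 5`, `x 7 ≥ x 8`, `x 2 ≥ x 6`, `x 0 ≥ x 4`. -/
def ctx0 : List (ℕ × ℕ) :=
  [(64 ^ 2, 64 ^ 3), (64 ^ 3, 64 ^ 5), (64 ^ 7, 64 ^ 8), (64 ^ 2, 64 ^ 6), (64 ^ 0, 64 ^ 4)]

end Pool.Agent.Q230.EF
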