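import Mathlib

/-!
# Connected fair division of the vertices of a graph
-/

namespace Pool.Agent.Q230.EF

open Finset

variable {V : Type} [DecidableEq V]

/-- A graph is traceable if it has a Hamiltonian path. -/
def Traceable (G : SimpleGraph V) : Prop :=
  ∃ (a b : V) (p : G.Walk a b), p.IsHamiltonian

/-- The set is empty or induces a connected subgraph. -/
def ConnSet (G : SimpleGraph V) (S : Finset V) : Prop :=
  S = ∅ ∨ (G.induce (S : Set V)).Connected

/-- `A i` is the share of the agent `i` in a connected allocation (shares may be empty). -/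
structure ConnAlloc (G : SimpleGraph V) {n : ℕ} (A : Fin n → Finset V) : Prop where
  disj : ∀ i j, i ≠ j → Disjoint (A i) (A j)
  cover : ∀ x, ∃ i, x ∈ A i
  conn : ∀ i, ConnSet G (A i)

/-- The vertex `o` is an outer vertex of `S`. -/
def Outer (G : SimpleGraph V) (S : Finset V) (o : V) : Prop := o ∈ S ∧ ConnSet G (S.erase o)

/-- The allocation `A` is envy-free up to one outer good; `v i S` is the value of the set `S` for
the agent `i`. -/
def EF1Outer (G : SimpleGraph V) {n : ℕ} (v : Fin n → Finset V → ℝ) (A : Fin n → Finset V) :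
    Prop :=
  ∀ i j, v i (A j) ≤ v i (A i) ∨ ∃ o, Outer G (A j) o ∧ v i ((A j).erase o) ≤ v i (A i)

/-- A profile is `CA` if all agents have the same valuation, and it is additive (and
nonnegative). -/
def CA {n : ℕ} (v : Fin n → Finset V → ℝ) : Prop :=
  ∃ w : V → ℝ, (∀ x, 0 ≤ w x) ∧ ∀ i S, v i S = ∑ x ∈ S, w x

/-- `G` universally guarantees connected `EF1_outer` allocations for `CA` profiles. -/
def GuaranteesCA (G : SimpleGraph V) : Prop :=
  ∀ n ≥ 1, ∀ v : Fin n → Finset V → ℝ, CA v → ∃ A, ConnAlloc G A ∧ EF1Outer G v A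

end Pool.Agent.Q230.EF
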