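import Pool.Agent.Q230.EF.Chk

/-!
# Certificates for fair partitions: soundness of the checker
-/

namespace Pool.Agent.Q230.EF

open Finset

/-- The number with the digits `l`. -/
def num (f : ℕ) (l : ℕ → ℕ) : ℕ := ∑ c ∈ range f, l c * 64 ^ c

theorem num_succ (f : ℕ) (l : ℕ → ℕ) : num (f + 1) l = l 0 + 64 * num f fun c => l (c + 1) := by
  unfold num
  rw [sum_range_succ', mul_sum, pow_zero, mul_one, add_comm]
  congr 1
  refine sum_congr rfl fun c _ => ?_
  rw [pow_succ]; ring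

theorem num_add (f : ℕ) (l r : ℕ → ℕ) : num f l + num f r = num f fun c => l c + r c := by
  unfold num
  rw [← sum_add_distrib]
  exact sum_congr rfl fun c _ => by ring

theorem num_mul (f D : ℕ) (l : ℕ → ℕ) : D * num f l = num f fun c => D * l c := by
  unfold num
  rw [mul_sum]
  exact sum_congr rfl fun c _ => by ring

theorem dle_sound : ∀ (f : ℕ) (l r : ℕ → ℕ), (∀ c, l c < 64) → (∀ c, r c < 64) →
    dle f (num f l) (num f r) = true → ∀ c < f, r c ≤ l c
  | 0, _, _, _, _, _, c, hc => by omega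
  | f + 1, l, r, hl, hr, h, c, hc => by
    rw [dle, num_succ, num_succ, Bool.and_eq_true, Nat.ble_eq, Nat.add_mul_mod_self_left,
      Nat.add_mul_mod_self_left, Nat.mod_eq_of_lt (hl 0), Nat.mod_eq_of_lt (hr 0),
      Nat.add_mul_div_left _ _ (by norm_num), Nat.add_mul_div_left _ _ (by norm_num),
      Nat.div_eq_of_lt (hl 0), Nat.div_eq_of_lt (hr 0), zero_add, zero_add] at h
    rcases c with _ | c
    · exact h.1
    · exact dle_sound f _ _ (fun c => hl (c + 1)) (fun c => hr (c + 1)) h.2 c (by omega)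

theorem spread_eq : ∀ f m : ℕ, spread f m = num f fun c => (m.testBit c).toNat
  | 0, m => by simp [spread, num]
  | f + 1, m => by
    rw [spread, num_succ, spread_eq f (m / 2)]
    congr 1
    · rw [Nat.testBit_zero]
      rcases Nat.mod_two_eq_zero_or_one m with h | h <;> simp [h]
    · congr 1
      congr 1
      funext c
      rw [Nat.testBit_succ]

/-- The value of a form. -/
noncomputable def ev (x : ℕ → ℝ) (l : ℕ → ℕ) : ℝ := ∑ c ∈ range 10, (l c : ℝ) * x c

theorem ev_add (x : ℕ → ℝ) (l r : ℕ → ℕ) : ev x (fun c => l c + r c) = ev x l + ev x r := by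
  unfold ev
  rw [← sum_add_distrib]
  exact sum_congr rfl fun c _ => by push_cast; ring

theorem ev_mul (x : ℕ → ℝ) (D : ℕ) (l : ℕ → ℕ) : ev x (fun c => D * l c) = D * ev x l := by
  unfold ev
  rw [mul_sum]
  exact sum_congr rfl fun c _ => by push_cast; ring

/-- A valid constraint. -/
def OKc (x : ℕ → ℝ) (st : ℕ × ℕ) : Prop :=
  ∃ s t : ℕ → ℕ, (∀ c, s c ≤ 1) ∧ (∀ c, t c ≤ 1) ∧ st.1 = num 10 s ∧ st.2 = num 10 t ∧
    ev x t ≤ ev x s

theorem OKc.zero (x : ℕ → ℝ) : OKc x (0, 0) :=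
  ⟨fun _ => 0, fun _ => 0, fun _ => zero_le_one, fun _ => zero_le_one, by simp [num],
    by simp [num], le_rfl⟩

theorem okc_getD {x : ℕ → ℝ} {ctx : List (ℕ × ℕ)} (h : ∀ st ∈ ctx, OKc x st) (k : ℕ) :
    OKc x (ctx.getD k (0, 0)) := by
  rw [List.getD_eq_getElem?_getD]
  rcases hk : ctx[k]? with _ | st
  · exact OKc.zero x
  · exact h st (List.mem_of_getElem? hk)

theorem fark_sound {x : ℕ → ℝ} (hx : ∀ c, 0 ≤ x c) {ctx : List (ℕ × ℕ)}
    (h : ∀ st ∈ ctx, OKc x st) : ∀ (f : ℕ) (l r : ℕ → ℕ) (w c : ℕ) (g : ℝ),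
      (∀ c, l c ≤ w) → (∀ c, r c ≤ w) → w + f ≤ 63 → ev x l - ev x r ≤ g →
      (fark ctx f (num 10 l) (num 10 r) c).1 = true → 0 ≤ g
  | 0, _, _, _, _, _, _, _, _, _, ht => by simp [fark] at ht
  | f + 1, l, r, w, c, g, hl, hr, hw, hg, ht => by
    rw [fark] at ht
    rcases hc : c % 32 with _ | k
    · rw [hc] at ht
      have := dle_sound 10 l r (fun c => by have := hl c; omega) (fun c => by have := hr c; omega)
        ht
      have : ev x r ≤ ev x l := sum_le_sum fun c hc =>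
        mul_le_mul_of_nonneg_right (Nat.cast_le.2 (this c (mem_range.1 hc))) (hx c)
      linarith
    · rw [hc] at ht
      simp only at ht
      obtain ⟨s, t, hs, htt, e1, e2, hst⟩ := okc_getD h k
      rw [e1, e2, num_add, num_add] at ht
      refine fark_sound hx h f _ _ (w + 1) (c / 32) g (fun c => ?_) (fun c => ?_) (by omega) ?_ ht
      · exact Nat.add_le_add (hl c) (htt c)
      · exact Nat.add_le_add (hr c) (hs c)
      · rw [ev_add, ev_add]; linarith

theorem farks_sound {x : ℕ → ℝ} (hx : ∀ c, 0 ≤ x c) {ctx : List (ℕ × ℕ)}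
    (h : ∀ st ∈ ctx, OKc x st) {l r : ℕ → ℕ} {c : ℕ} (hl : ∀ c, l c ≤ 1) (hr : ∀ c, r c ≤ 1)
    (ht : (farks ctx (num 10 l) (num 10 r) c).1 = true) : ev x r ≤ ev x l := by
  unfold farks at ht
  rcases hb : Nat.beq (c % 32) 31 with _ | _
  · rw [hb, cond_false] at ht
    have := fark_sound hx h 50 l r 1 c (ev x l - ev x r) hl hr (by norm_num) le_rfl ht
    linarith
  · rw [hb, cond_true] at ht
    rcases hD : c / 32 % 8 with _ | D
    · rw [hD] at ht; simp at ht
    · rw [hD] at ht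
      simp only at ht
      rw [num_mul, num_mul] at ht
      have hD8 : D + 1 < 8 := by rw [← hD]; exact Nat.mod_lt _ (by norm_num)
      have := fark_sound hx h 50 (fun c => (D + 1) * l c) (fun c => (D + 1) * r c) (D + 1)
        (c / 1024) ((D + 1 : ℕ) * (ev x l - ev x r)) (fun c => by nlinarith [hl c])
        (fun c => by nlinarith [hr c]) (by omega) (by rw [ev_mul, ev_mul]; linarith) ht
      have hp : (0 : ℝ) < ((D + 1 : ℕ) : ℝ) := by positivity
      have := nonneg_of_mul_nonneg_right this hp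
      linarith

theorem pk_eq : ∀ P : List ℕ, (∀ a ∈ P, a < 10) → pk P = num 10 fun c => P.count c
  | [], _ => by simp [pk, num]
  | a :: l, h => by
    rw [pk, pk_eq l fun b hb => h b (List.mem_cons_of_mem _ hb)]
    have e : (2 : ℕ) ^ (6 * a) = num 10 fun c => if a = c then 1 else 0 := by
      unfold num
      simp only [ite_mul, one_mul, zero_mul]
      rw [sum_ite_eq, if_pos (mem_range.2 (h a (by simp))), pow_mul]
      norm_num
    rw [e, num_add]
    congr 1
    funext c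
    rw [List.count_cons]
    by_cases hc : a = c
    · simp [hc, add_comm]
    · simp [hc]

theorem ev_count (x : ℕ → ℝ) : ∀ P : List ℕ, (∀ a ∈ P, a < 10) →
    ev x (fun c => P.count c) = (P.map x).sum
  | [], _ => by simp [ev]
  | a :: l, h => by
    rw [List.map_cons, List.sum_cons, ← ev_count x l fun b hb => h b (List.mem_cons_of_mem _ hb)]
    have e : x a = ev x fun c => if a = c then 1 else 0 := by
      unfold ev
      simp only [Nat.cast_ite, Nat.cast_one, Nat.cast_zero, ite_mul, one_mul, zero_mul]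
      rw [sum_ite_eq, if_pos (mem_range.2 (h a (by simp)))]
    rw [e, ← ev_add]
    congr 1
    funext c
    rw [List.count_cons]
    by_cases hc : a = c
    · simp [hc, add_comm]
    · simp [hc]

theorem row_sound {x : ℕ → ℝ} (hx : ∀ c, 0 ≤ x c) {ctx : List (ℕ × ℕ)}
    (h : ∀ st ∈ ctx, OKc x st) {P : List ℕ} (hP : P.Nodup) (hP' : ∀ a ∈ P, a < 10) :
    ∀ (Qs : List (List ℕ)) (c : ℕ), (∀ Q ∈ Qs, Q.Nodup ∧ ∀ a ∈ Q, a < 10) →
      (row ctx (pk P) Qs c).1 = true → ∀ Q ∈ Qs, (Q.tail.map x).sum ≤ (P.map x).sum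
  | [], _, _, _, Q, hQ => by simp at hQ
  | Q0 :: Qs, c, hQs, ht, Q, hQ => by
    rw [row] at ht
    have h0 := hQs Q0 (by simp)
    have hrec : ∀ c', (row ctx (pk P) Qs c').1 = true → ∀ Q ∈ Qs,
        (Q.tail.map x).sum ≤ (P.map x).sum := fun c' hc' =>
      row_sound hx h hP hP' Qs c' (fun Q hQ => hQs Q (by simp [hQ])) hc'
    have hpos : 0 ≤ (P.map x).sum := List.sum_nonneg fun y hy => by
      obtain ⟨a, _, rfl⟩ := List.mem_map.1 hy
      exact hx a
    rcases hq : Q0.tail with _ | ⟨q, qs⟩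
    · rw [hq] at ht
      simp only at ht
      rcases List.mem_cons.1 hQ with rfl | hQ
      · rw [hq]; simpa using hpos
      · exact hrec c ht Q hQ
    · rw [hq] at ht
      simp only at ht
      have hn : (q :: qs).Nodup := hq ▸ h0.1.tail
      have hl : ∀ a ∈ q :: qs, a < 10 := fun a ha => h0.2 a (List.mem_of_mem_tail (hq ▸ ha))
      rcases hf : farks ctx (pk P) (pk (q :: qs)) c with ⟨b, c'⟩
      rw [hf] at ht
      cases b with
      | false => simp at ht
      | true =>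
        simp only at ht
        have e : (farks ctx (pk P) (pk (q :: qs)) c).1 = true := by rw [hf]
        rw [pk_eq P hP', pk_eq _ hl] at e
        have := farks_sound hx h (fun c => List.nodup_iff_count_le_one.1 hP c)
          (fun c => List.nodup_iff_count_le_one.1 hn c) e
        rw [ev_count x _ hl, ev_count x _ hP'] at this
        rcases List.mem_cons.1 hQ with rfl | hQ
        · rw [hq]; exact this
        · exact hrec c' ht Q hQ

theorem rows_sound {x : ℕ → ℝ} (hx : ∀ c, 0 ≤ x c) {ctx : List (ℕ × ℕ)}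
    (h : ∀ st ∈ ctx, OKc x st) {Ps : List (List ℕ)} (hPs : ∀ Q ∈ Ps, Q.Nodup ∧ ∀ a ∈ Q, a < 10) :
    ∀ (Qs : List (List ℕ)) (c : ℕ), (∀ Q ∈ Qs, Q.Nodup ∧ ∀ a ∈ Q, a < 10) →
      rows ctx Ps Qs c = true → ∀ P ∈ Qs, ∀ Q ∈ Ps, (Q.tail.map x).sum ≤ (P.map x).sum
  | [], _, _, _, Q, hQ => by simp at hQ
  | P0 :: Qs, c, hQs, ht, P, hP => by
    rw [rows] at ht
    have h0 := hQs P0 (by simp)
    rcases hf : row ctx (pk P0) Ps c with ⟨b, c'⟩
    rw [hf] at ht
    cases b with
    | false => simp at ht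
    | true =>
      simp only at ht
      rcases List.mem_cons.1 hP with rfl | hP
      · exact row_sound hx h h0.1 h0.2 Ps c hPs (by rw [hf])
      · exact rows_sound hx h hPs Qs c' (fun Q hQ => hQs Q (by simp [hQ])) ht P hP

theorem nd_sound : ∀ l : List ℕ, nd l = true → l.Nodup ∧ ∀ a ∈ l, a < 10
  | [], _ => by simp
  | a :: l, h => by
    rw [nd, Bool.and_eq_true, Bool.and_eq_true, Nat.ble_eq] at h
    have := nd_sound l h.2.2
    refine ⟨List.nodup_cons.2 ⟨fun ha => ?_, this.1⟩, fun b hb => ?_⟩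
    · have h1 := h.2.1
      simp only [Bool.not_eq_true', List.any_eq_false] at h1
      exact h1 a ha (Nat.beq_refl a)
    · rcases List.mem_cons.1 hb with rfl | hb
      · omega
      · exact this.2 b hb

/-- There is a fair partition into `n` connected parts (lists of vertices; the first element is the
one that is removed). -/
def LGood (n : ℕ) (x : ℕ → ℝ) : Prop :=
  ∃ Ps : List (List ℕ), Ps.length = n ∧ (∀ P ∈ Ps, ch P = true) ∧ Ps.flatten.Nodup ∧
    (∀ a ∈ Ps.flatten, a < 10) ∧ Ps.flatten.length = 10 ∧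
    ∀ P ∈ Ps, ∀ Q ∈ Ps, (Q.tail.map x).sum ≤ (P.map x).sum

theorem leaf_sound {x : ℕ → ℝ} (hx : ∀ c, 0 ≤ x c) {n : ℕ} {ctx : List (ℕ × ℕ)}
    (h : ∀ st ∈ ctx, OKc x st) {Ps : List (List ℕ)} {c : ℕ} (ht : leafOK n ctx Ps c = true) :
    LGood n x := by
  unfold leafOK at ht
  simp only [Bool.and_eq_true, List.all_eq_true] at ht
  obtain ⟨h1, h2, h3, h4, h5⟩ := ht
  obtain ⟨h6, h7⟩ := nd_sound _ h3
  have hPs : ∀ Q ∈ Ps, Q.Nodup ∧ ∀ a ∈ Q, a < 10 := fun Q hQ =>
    ⟨(List.nodup_flatten.1 h6).1 Q hQ, fun a ha => h7 a (List.mem_flatten.2 ⟨Q, hQ, ha⟩)⟩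
  exact ⟨Ps, Nat.eq_of_beq_eq_true h1, h2, h6, h7, Nat.eq_of_beq_eq_true h4,
    rows_sound hx h hPs Ps c hPs h5⟩

theorem toNat_le (b : Bool) : b.toNat ≤ 1 := Bool.toNat_le b

theorem chk_sound {x : ℕ → ℝ} (hx : ∀ c, 0 ≤ x c) {n : ℕ} : ∀ (T : Tr) (ctx : List (ℕ × ℕ)),
    (∀ st ∈ ctx, OKc x st) → chk n ctx T = true → LGood n x
  | .n s t A B, ctx, h, ht => by
    rw [chk, Bool.and_eq_true] at ht
    rcases le_total (ev x fun c => (t.testBit c).toNat) (ev x fun c => (s.testBit c).toNat) with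
      hst | hst
    · refine chk_sound hx A _ (fun st hs => ?_) ht.1
      rcases List.mem_cons.1 hs with rfl | hs
      · exact ⟨_, _, fun c => toNat_le _, fun c => toNat_le _, spread_eq _ _, spread_eq _ _, hst⟩
      · exact h st hs
    · refine chk_sound hx B _ (fun st hs => ?_) ht.2
      rcases List.mem_cons.1 hs with rfl | hs
      · exact ⟨_, _, fun c => toNat_le _, fun c => toNat_le _, spread_eq _ _, spread_eq _ _, hst⟩
      · exact h st hs
  | .l p c, ctx, h, ht => by
    rw [chk] at ht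
    exact leaf_sound hx h ht

theorem okc_pair {x : ℕ → ℝ} {a b : ℕ} (ha : a < 10) (hb : b < 10) (h : x b ≤ x a) :
    OKc x (64 ^ a, 64 ^ b) := by
  have e : ∀ a, a < 10 → (64 : ℕ) ^ a = num 10 fun c => if a = c then 1 else 0 := by
    intro a ha
    unfold num
    simp only [ite_mul, one_mul, zero_mul]
    rw [sum_ite_eq, if_pos (mem_range.2 ha)]
  have e' : ∀ a, a < 10 → x a = ev x fun c => if a = c then 1 else 0 := by
    intro a ha
    unfold ev
    simp only [Nat.cast_ite, Nat.cast_one, Nat.cast_zero, ite_mul, one_mul, zero_mul]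
    rw [sum_ite_eq, if_pos (mem_range.2 ha)]
  refine ⟨fun c => if a = c then 1 else 0, fun c => if b = c then 1 else 0, fun c => ?_,
    fun c => ?_, e a ha, e b hb, ?_⟩
  · show (if a = c then 1 else 0) ≤ 1
    split_ifs <;> norm_num
  · show (if b = c then 1 else 0) ≤ 1
    split_ifs <;> norm_num
  · rw [← e' a ha, ← e' b hb]; exact h

theorem okc_ctx0 {x : ℕ → ℝ} (h1 : x 3 ≤ x 2) (h2 : x 5 ≤ x 3) (h3 : x 8 ≤ x 7) (h4 : x 6 ≤ x 2)
    (h5 : x 4 ≤ x 0) : ∀ st ∈ ctx0, OKc x st := by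
  intro st hst
  simp only [ctx0, List.mem_cons, List.not_mem_nil, or_false] at hst
  rcases hst with rfl | rfl | rfl | rfl | rfl
  · exact okc_pair (by norm_num) (by norm_num) h1
  · exact okc_pair (by norm_num) (by norm_num) h2
  · exact okc_pair (by norm_num) (by norm_num) h3
  · exact okc_pair (by norm_num) (by norm_num) h4
  · exact okc_pair (by norm_num) (by norm_num) h5

end Pool.Agent.Q230.EF
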