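import Pool.Agent.Q230.EF.Chk

set_option maxRecDepth 100000

/-!
# Certificate for 2 agents
-/

namespace Pool.Agent.Q230.EF

open Tr

/-- The decision tree. -/
def tree2 : Tr := (n 201 818 (n 822 193 (l 0x3a695204871 0x8040)
(n 830 65 (l 0x3a649520871 0x101040)
(n 1018 4 (l 0x8a649752013 0x2042040)
(l 0x3a964852017 0x100820))))
(n 205 306 (l 0xa6952034871 0x10020)
(n 221 290 (n 802 217 (l 0xa6920348751 0x8040)
(n 205 802 (l 0x5a692034871 0x20020)
(l 0xa6920148753 0xa08040)))
(n 514 505 (n 509 512 (l 0x2a039648751 0x10020)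
(l 0xa0296487531 0x20))
(n 489 530 (n 534 481 (l 0x3a520496871 0x8040)
(n 534 361 (l 0x3a520864971 0x8040)
(l 0x9a352046871 0x4252502820)))
(n 429 530 (l 0x7a520396481 0x10020)
(n 493 514 (l 0x5a203964871 0x18020)
(l 0x2a019648753 0xc08080))))))))

theorem chk2 : chk 2 ctx0 tree2 = true := by decide +kernel

end Pool.Agent.Q230.EF
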