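import Pool.Agent.Q230.EF.Chk

set_option maxRecDepth 100000

/-!
# Certificate for 9 agents
-/

namespace Pool.Agent.Q230.EF

open Tr

/-- The decision tree. -/
def tree9 : Tr := (n 2 16 (n 8 16 (n 1 256 (n 512 256 (n 32 256 (n 2 256 (n 64 256 (l 0xa08070605904030201 0x8050020180091816100805)
(l 0xa09080605704030201 0x10200814100c200246102c02080a1))
(l 0xa09080607504030201 0x184c0098090980209800280e50180b))
(n 2 32 (n 16 32 (n 64 32 (l 0xa08070960504030201 0x2900b200200080a03020181a2)
(l 0xa09080605704030201 0x5204040816408020028206006103441))
(l 0xa09080607504030201 0x830806102861004003010601c0c))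
(l 0xa09080607504030201 0x620980209809104c009800280e50180b)))
(n 32 512 (n 16 512 (n 64 512 (l 0x908070605040302a01 0x2014400403008061016100182)
(l 0xa09080605704030201 0x202040a20403080061040b01c4103041))
(l 0xa09080607504030201 0x100c2048c2010400280e50180b))
(n 2 32 (n 16 32 (n 64 32 (l 0xa08070960504030201 0x20165200200080a03020181a2)
(l 0xa09080605704030201 0x810148102ca408020028206006103441))
(l 0xa09080607504030201 0xc2020c2051061004003010601c0c))
(l 0xa09080607504030201 0x82600c4130123104c009800280e50180b))))
(n 512 16 (n 32 16 (l 0xa09080607504030201 0x1006a0206a00400200c40140a)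
(n 64 32 (l 0xa08070960504030201 0xc404916200400101005040610162)
(l 0xa09080605040302017 0x310404588204916208020104080814030820)))
(n 32 512 (n 64 512 (l 0x908070605040302a01 0x22c60491630040200c081014100163)
(l 0xa09080605040302017 0x1011630812458c2010403081020814030c20))
(n 64 32 (l 0xa08070960504030201 0x40491631002000c40401410186202c62)
(l 0xa09080605040302017 0x1040458c410248b1882008062081010280618820)))))
(n 256 32 (n 512 32 (n 64 32 (l 0xa08070960504030201 0x80818020010e0381210148702887)
(l 0xa09080605704030201 0x8201840818401000e10240521c20510e1))
(n 64 512 (l 0x908070605040302a01 0x620206200402010e201c4048400510e2)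
(l 0xa09080605704030201 0x806208103104020800710409014871040a21c41)))
(n 512 256 (n 64 256 (l 0xa08070690504030201 0x4040020010e301c604840521c60510e3)
(l 0xa09080605040302017 0x10401020201840438c2038c20480a438c20))
(n 64 512 (l 0x908070605040302a01 0x10102004031008718807188090800a21c62)
(l 0xa09080605040302017 0x100820408201882021c62080e3104090148718820)))))
(n 4 2 (n 2 256 (n 512 256 (n 64 256 (n 32 256 (l 0xa08070690504030201 0x302402000c4020205080402cc4)
(l 0xa08070960504030201 0x61024201040031020400e80102059881))
(n 32 64 (l 0xa09080605040302017 0x620080910020310404040a01040)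
(l 0xa08070960504030201 0x6208122080200188208100504041040b31041)))
(n 32 512 (n 64 512 (l 0x908070605040302a01 0x181230040201883020405040059883)
(l 0xa09080605040302017 0x403081230804101883081020814020c20))
(n 64 32 (l 0xa08070960504030201 0x10123100200188310100504041880b31062)
(l 0xa09080605040302017 0x4100c41024620802031062081010280418820))))
(n 32 2 (n 64 2 (l 0x90807060504030a201 0xc0818020100a03880400145)
(n 512 64 (l 0xa09080605704030201 0x80820248200c40020620280202cc2)
(l 0x908070605040302a01 0x2082049041004031040610408188205040059841)))
(n 512 32 (n 64 32 (l 0xa08070960504030201 0x404906008006181005040302cc3)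
(l 0xa09080605040302017 0x4101061024830802030c204040a00c20))
(n 64 512 (l 0x908070605040302a01 0x20c40490620040201862020405040059862)
(l 0xa09080605040302017 0x40418820490620804101862081020814018820)))))
(n 256 32 (n 512 32 (n 64 32 (l 0xa08070960504030201 0x8081802001489080e0484044840a29121)
(l 0xa09080605040302017 0x104030810308020291203840901120))
(n 64 512 (l 0x908070605040302a01 0x18808188010080522420388090800a29121)
(l 0xa09080605040302017 0x403104081882010405224071040901120)))
(n 512 256 (n 64 256 (l 0xa08070690504030201 0x808004002912101c60484044840a29121)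
(l 0xa09080605040302017 0x104010202018405224071840901120))
(n 64 512 (l 0x908070605040302a01 0x1010200403100a448407188090800a29121)
(l 0xa09080605040302017 0x4020810208062080a4480e31040901120))))))

theorem chk9 : chk 9 ctx0 tree9 = true := by decide +kernel

end Pool.Agent.Q230.EF
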