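import Pool.Agent.Q230.EF.Defs
import Pool.Agent.Q230.EF.Sound
import Pool.Agent.Q230.EF.T2
import Pool.Agent.Q230.EF.T3
import Pool.Agent.Q230.EF.T4
import Pool.Agent.Q230.EF.T5
import Pool.Agent.Q230.EF.T6
import Pool.Agent.Q230.EF.T7
import Pool.Agent.Q230.EF.T8
import Pool.Agent.Q230.EF.T9

/-!
# A non-traceable graph that guarantees fair connected allocations
-/

namespace Pool.Agent.Q230.EF

open Finset

/-- The graph: a complete graph on `0, 1, 4, 7, 8`, the vertices `2` and `6` are joined to `0` and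
`4`, the vertices `3` and `5` are joined to `7` and `8`, and the vertex `9` is joined to `1`. -/
def G : SimpleGraph (Fin 10) where
  Adj a b := adjB a b = true
  symm := by
    have h : ∀ a b : Fin 10, adjB a b = true → adjB b a = true := by decide +kernel
    exact ⟨fun a b => h a b⟩
  loopless := ⟨by decide +kernel⟩

/-! ### Connectedness -/

theorem reach (s : Set (Fin 10)) : ∀ P : List ℕ, ch P = true → (∀ a ∈ P, a < 10) →
    (∀ x : Fin 10, (x : ℕ) ∈ P → x ∈ s) →
    ∃ r : s, ((r : Fin 10) : ℕ) ∈ P ∧ ∀ x : s, ((x : Fin 10) : ℕ) ∈ P → (G.induce s).Reachable r x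
  | [], h, _, _ => by simp [ch] at h
  | [a], _, h10, hs => by
    have ha : a < 10 := h10 a (by simp)
    refine ⟨⟨⟨a, ha⟩, hs _ (by simp)⟩, by simp, fun x hx => ?_⟩
    have : x = ⟨⟨a, ha⟩, hs _ (by simp)⟩ := by
      apply Subtype.ext
      apply Fin.ext
      simpa using hx
    rw [this]
  | a :: b :: l, h, h10, hs => by
    rw [ch, Bool.and_eq_true, List.any_eq_true] at h
    obtain ⟨⟨c, hc, hac⟩, h2⟩ := h
    obtain ⟨r, hr, hreach⟩ := reach s (b :: l) h2 (fun a ha => h10 a (List.mem_cons_of_mem _ ha))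
      fun x hx => hs x (List.mem_cons_of_mem _ hx)
    refine ⟨r, List.mem_cons_of_mem _ hr, fun x hx => ?_⟩
    rcases List.mem_cons.1 hx with hx | hx
    · have hc10 : c < 10 := h10 c (List.mem_cons_of_mem _ hc)
      have hcs : (⟨c, hc10⟩ : Fin 10) ∈ s := hs _ (List.mem_cons_of_mem _ hc)
      refine (hreach ⟨⟨c, hc10⟩, hcs⟩ hc).trans (SimpleGraph.Adj.reachable ?_)
      have h3 : adjB c ((x : Fin 10) : ℕ) = true := by
        exact G.adj_symm (u := (x : Fin 10)) (v := ⟨c, hc10⟩)
          (show adjB _ _ = true by rw [hx]; exact hac)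
      exact h3
    · exact hreach x hx

/-- The set of the vertices in a list. -/
def toS (P : List ℕ) : Finset (Fin 10) := univ.filter fun x => (x : ℕ) ∈ P

theorem mem_toS {P : List ℕ} {x : Fin 10} : x ∈ toS P ↔ (x : ℕ) ∈ P := by simp [toS]

theorem toS_nil : toS [] = ∅ := by simp [toS]

theorem connSet_toS {P : List ℕ} (h : ch P = true) (h10 : ∀ a ∈ P, a < 10) :
    ConnSet G (toS P) := by
  right
  obtain ⟨r, -, hr⟩ := reach (toS P : Set (Fin 10)) P h h10 fun x hx => by
    simpa [toS] using hx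
  rw [SimpleGraph.connected_iff_exists_forall_reachable]
  exact ⟨r, fun x => hr x (by simpa [toS] using x.2)⟩

/-- Extension of a function on the vertices. -/
noncomputable def ext (w : Fin 10 → ℝ) (k : ℕ) : ℝ := if h : k < 10 then w ⟨k, h⟩ else 0

theorem sum_toS (w : Fin 10 → ℝ) : ∀ P : List ℕ, P.Nodup → (∀ a ∈ P, a < 10) →
    ∑ x ∈ toS P, w x = (P.map (ext w)).sum
  | [], _, _ => by simp [toS_nil]
  | a :: l, hn, h => by
    have ha : a < 10 := h a (by simp)
    have hn' := List.nodup_cons.1 hn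
    have e : toS (a :: l) = insert ⟨a, ha⟩ (toS l) := by
      ext x
      rw [mem_toS, mem_insert, mem_toS, List.mem_cons, Fin.ext_iff]
    rw [e, sum_insert (by rw [mem_toS]; exact hn'.1), sum_toS w l hn'.2 fun b hb =>
      h b (List.mem_cons_of_mem _ hb), List.map_cons, List.sum_cons, ext, dif_pos ha]

theorem alloc_of_good {n : ℕ} {w : Fin 10 → ℝ} (h : LGood n (ext w)) :
    ∃ A : Fin n → Finset (Fin 10), ConnAlloc G A ∧
      EF1Outer G (fun _ S => ∑ x ∈ S, w x) A := by
  obtain ⟨Ps, rfl, hch, hnd, h10, hlen, hval⟩ := h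
  have hPs : ∀ Q ∈ Ps, Q.Nodup ∧ ∀ a ∈ Q, a < 10 := fun Q hQ =>
    ⟨(List.nodup_flatten.1 hnd).1 Q hQ, fun a ha => h10 a (List.mem_flatten.2 ⟨Q, hQ, ha⟩)⟩
  have hdis := (List.nodup_flatten.1 hnd).2
  refine ⟨fun i => toS Ps[i], ⟨fun i j hij => ?_, fun x => ?_, fun i => ?_⟩, fun i j => ?_⟩
  · have key : ∀ i j : Fin Ps.length, i < j → Disjoint (toS Ps[i]) (toS Ps[j]) := by
      intro i j hlt
      have := List.pairwise_iff_getElem.1 hdis i j i.2 j.2 hlt
      rw [Finset.disjoint_left]
      intro x hx hx'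
      exact this (mem_toS.1 hx) (mem_toS.1 hx')
    rcases lt_or_gt_of_ne hij with h | h
    · exact key i j h
    · exact (key j i h).symm
  · have hx : (x : ℕ) ∈ Ps.flatten := by
      have hsub : Ps.flatten.toFinset ⊆ range 10 := fun a ha =>
        mem_range.2 (h10 a (List.mem_toFinset.1 ha))
      have hcard : Ps.flatten.toFinset.card = 10 := by
        rw [List.toFinset_card_of_nodup hnd, hlen]
      have := Finset.eq_of_subset_of_card_le hsub (by rw [hcard, card_range])
      exact List.mem_toFinset.1 (this ▸ mem_range.2 x.2)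
    obtain ⟨Q, hQ, hxQ⟩ := List.mem_flatten.1 hx
    obtain ⟨i, hi, rfl⟩ := List.mem_iff_getElem.1 hQ
    exact ⟨⟨i, hi⟩, mem_toS.2 hxQ⟩
  · exact connSet_toS (hch _ (List.getElem_mem _)) (hPs _ (List.getElem_mem _)).2
  · right
    have hj := hch Ps[j] (List.getElem_mem _)
    have hj' := hPs Ps[j] (List.getElem_mem _)
    have hi' := hPs Ps[i] (List.getElem_mem _)
    have hv := hval Ps[i] (List.getElem_mem _) Ps[j] (List.getElem_mem _)
    simp only
    rcases hQ : Ps[j] with _ | ⟨o, t⟩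
    · rw [hQ] at hj; simp [ch] at hj
    · rw [hQ] at hj hj' hv
      have ho : o < 10 := hj'.2 o (by simp)
      have hn := List.nodup_cons.1 hj'.1
      have e : (toS (o :: t)).erase ⟨o, ho⟩ = toS t := by
        ext x
        rw [mem_erase, mem_toS, mem_toS, List.mem_cons, ne_eq, Fin.ext_iff]
        constructor
        · rintro ⟨h1, h2 | h2⟩
          · exact absurd h2 h1
          · exact h2
        · intro h
          refine ⟨fun h' => hn.1 ?_, .inr h⟩
          simp only at h'
          rwa [← h']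
      refine ⟨⟨o, ho⟩, ⟨mem_toS.2 (by simp), ?_⟩, ?_⟩
      · rw [e]
        rcases t with _ | ⟨b, l⟩
        · exact .inl toS_nil
        · rw [ch, Bool.and_eq_true] at hj
          exact connSet_toS hj.2 fun a ha => hj'.2 a (List.mem_cons_of_mem _ ha)
      · rw [e, sum_toS w t hn.2 fun a ha => hj'.2 a (List.mem_cons_of_mem _ ha),
          sum_toS w _ hi'.1 hi'.2]
        exact hv

/-! ### Symmetries -/

/-- A permutation given by a list. -/
def sw (l : List ℕ) (a : ℕ) : ℕ := l.getD a a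

/-- Automorphisms given by lists. -/
def isAut (l : List ℕ) : Bool :=
  (List.range 10).all fun a => Nat.blt (sw l a) 10 && (List.range 10).all fun b =>
    (adjB (sw l a) (sw l b) == adjB a b) && (Nat.beq a b || !(Nat.beq (sw l a) (sw l b)))

theorem aut_of {l : List ℕ} (h : isAut l = true) :
    (∀ a < 10, sw l a < 10) ∧ (∀ a < 10, ∀ b < 10, adjB (sw l a) (sw l b) = adjB a b) ∧
      ∀ a < 10, ∀ b < 10, sw l a = sw l b → a = b := by
  unfold isAut at h
  simp only [List.all_eq_true, List.mem_range, Bool.and_eq_true, Bool.or_eq_true,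
    Bool.not_eq_true', beq_iff_eq] at h
  refine ⟨fun a ha => ?_, fun a ha b hb => ((h a ha).2 b hb).1, fun a ha b hb e => ?_⟩
  · have := (h a ha).1
    simpa [Nat.blt_eq] using this
  · rcases ((h a ha).2 b hb).2 with h1 | h1
    · exact Nat.eq_of_beq_eq_true h1
    · rw [e, Nat.beq_refl] at h1
      exact absurd h1 (by simp)

theorem ch_map {l : List ℕ} (h : ∀ a < 10, ∀ b < 10, adjB (sw l a) (sw l b) = adjB a b) :
    ∀ P : List ℕ, (∀ a ∈ P, a < 10) → ch P = true → ch (P.map (sw l)) = true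
  | [], _, hP => by simp [ch] at hP
  | [a], _, _ => by simp [ch]
  | a :: b :: t, h10, hP => by
    rw [ch, Bool.and_eq_true, List.any_eq_true] at hP
    obtain ⟨⟨c, hc, hac⟩, h2⟩ := hP
    rw [List.map_cons, List.map_cons, ch, Bool.and_eq_true, List.any_eq_true]
    refine ⟨⟨sw l c, ?_, ?_⟩, ?_⟩
    · rw [← List.map_cons]; exact List.mem_map_of_mem hc
    · rw [h a (h10 a (by simp)) c (h10 c (List.mem_cons_of_mem _ hc))]; exact hac
    · rw [← List.map_cons]
      exact ch_map h (b :: t) (fun a ha => h10 a (List.mem_cons_of_mem _ ha)) h2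

theorem LGood.aut {n : ℕ} {x : ℕ → ℝ} {l : List ℕ} (h : isAut l = true)
    (hg : LGood n (fun a => x (sw l a))) : LGood n x := by
  obtain ⟨a1, a2, a3⟩ := aut_of h
  obtain ⟨Ps, h1, h2, h3, h4, h5, h6⟩ := hg
  have hf : (Ps.map (List.map (sw l))).flatten = Ps.flatten.map (sw l) := by
    rw [List.map_flatten]
  refine ⟨Ps.map (List.map (sw l)), by simpa using h1, ?_, ?_, ?_, ?_, ?_⟩
  · intro P hP
    obtain ⟨Q, hQ, rfl⟩ := List.mem_map.1 hP
    exact ch_map a2 Q (fun a ha => h4 a (List.mem_flatten.2 ⟨Q, hQ, ha⟩)) (h2 Q hQ)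
  · rw [hf]
    exact List.Nodup.map_on (fun a ha b hb e => a3 a (h4 a ha) b (h4 b hb) e) h3
  · rw [hf]
    intro a ha
    obtain ⟨b, hb, rfl⟩ := List.mem_map.1 ha
    exact a1 b (h4 b hb)
  · rw [hf, List.length_map]; exact h5
  · intro P hP Q hQ
    obtain ⟨P', hP', rfl⟩ := List.mem_map.1 hP
    obtain ⟨Q', hQ', rfl⟩ := List.mem_map.1 hQ
    have := h6 P' hP' Q' hQ'
    rw [← List.map_tail, List.map_map, List.map_map]
    exact this

theorem good_of_chk {n : ℕ} {T : Tr} (hT : chk n ctx0 T = true) {x : ℕ → ℝ}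
    (hx : ∀ c, 0 ≤ x c) : LGood n x := by
  have step0 : ∀ x : ℕ → ℝ, (∀ c, 0 ≤ x c) → x 3 ≤ x 2 → x 5 ≤ x 3 → x 8 ≤ x 7 → x 6 ≤ x 2 →
      x 4 ≤ x 0 → LGood n x := fun x hx h1 h2 h3 h4 h5 =>
    chk_sound hx T ctx0 (okc_ctx0 h1 h2 h3 h4 h5) hT
  have step1 : ∀ x : ℕ → ℝ, (∀ c, 0 ≤ x c) → x 5 ≤ x 3 → x 8 ≤ x 7 → x 6 ≤ x 2 →
      x 4 ≤ x 0 → LGood n x := by
    intro x hx h2 h3 h4 h5
    rcases le_total (x 3) (x 2) with h | h
    · exact step0 x hx h h2 h3 h4 h5
    · exact LGood.aut (l := [7, 1, 3, 2, 8, 6, 5, 0, 4, 9]) (by decide +kernel)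
        (step0 _ (fun c => hx _) h h4 h5 h2 h3)
  have step2 : ∀ x : ℕ → ℝ, (∀ c, 0 ≤ x c) → x 8 ≤ x 7 → x 6 ≤ x 2 →
      x 4 ≤ x 0 → LGood n x := by
    intro x hx h3 h4 h5
    rcases le_total (x 5) (x 3) with h | h
    · exact step1 x hx h h3 h4 h5
    · exact LGood.aut (l := [0, 1, 2, 5, 4, 3, 6, 7, 8, 9]) (by decide +kernel)
        (step1 _ (fun c => hx _) h h3 h4 h5)
  have step3 : ∀ x : ℕ → ℝ, (∀ c, 0 ≤ x c) → x 6 ≤ x 2 → x 4 ≤ x 0 → LGood n x := by
    intro x hx h4 h5
    rcases le_total (x 8) (x 7) with h | h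
    · exact step2 x hx h h4 h5
    · exact LGood.aut (l := [0, 1, 2, 3, 4, 5, 6, 8, 7, 9]) (by decide +kernel)
        (step2 _ (fun c => hx _) h h4 h5)
  have step4 : ∀ x : ℕ → ℝ, (∀ c, 0 ≤ x c) → x 4 ≤ x 0 → LGood n x := by
    intro x hx h5
    rcases le_total (x 6) (x 2) with h | h
    · exact step3 x hx h h5
    · exact LGood.aut (l := [0, 1, 6, 3, 4, 5, 2, 7, 8, 9]) (by decide +kernel)
        (step3 _ (fun c => hx _) h h5)
  rcases le_total (x 4) (x 0) with h | h
  · exact step4 x hx h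
  · exact LGood.aut (l := [4, 1, 2, 3, 0, 5, 6, 7, 8, 9]) (by decide +kernel)
      (step4 _ (fun c => hx _) h)

theorem good_one {x : ℕ → ℝ} (hx : ∀ c, 0 ≤ x c) : LGood 1 x := by
  refine ⟨[[9, 1, 2, 6, 3, 5, 4, 7, 8, 0]], rfl, by decide +kernel, by decide +kernel,
    by decide +kernel, rfl, fun P hP Q hQ => ?_⟩
  rw [List.mem_singleton] at hP hQ
  subst hP
  subst hQ
  simp only [List.tail_cons, List.map_cons, List.sum_cons]
  have := hx 9
  linarith

/-- The graph guarantees fair allocations. -/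
theorem guarantees : GuaranteesCA G := by
  intro n hn v hv
  obtain ⟨w, hw, hv⟩ := hv
  have e : v = fun _ S => ∑ x ∈ S, w x := by
    funext i S
    exact hv i S
  rw [e]
  have hx : ∀ c, 0 ≤ ext w c := fun c => by
    unfold ext
    split_ifs
    · exact hw _
    · exact le_rfl
  by_cases h10 : 10 ≤ n
  · refine ⟨fun i => if h : (i : ℕ) < 10 then {⟨i, h⟩} else ∅, ⟨fun i j hij => ?_, fun x => ?_,
      fun i => ?_⟩, fun i j => ?_⟩
    · split_ifs with h1 h2
      · rw [disjoint_singleton]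
        intro h
        exact hij (Fin.ext (by simpa using h))
      · simp
      · simp
      · simp
    · refine ⟨⟨x, by omega⟩, ?_⟩
      simp
    · split_ifs with h
      · right
        rw [coe_singleton]
        exact SimpleGraph.connected_iff_exists_forall_reachable _ |>.2
          ⟨⟨⟨i, h⟩, rfl⟩, fun y => by
            have : y = ⟨⟨i, h⟩, rfl⟩ := Subtype.ext y.2
            rw [this]⟩
      · exact .inl rfl
    · simp only
      by_cases h : (j : ℕ) < 10
      · right
        rw [dif_pos h]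
        refine ⟨⟨j, h⟩, ⟨by simp, .inl (by simp)⟩, ?_⟩
        simp only [erase_singleton, sum_empty]
        exact sum_nonneg fun x _ => hw x
      · left
        rw [dif_neg h, sum_empty]
        exact sum_nonneg fun x _ => hw x
  · have : n = 1 ∨ n = 2 ∨ n = 3 ∨ n = 4 ∨ n = 5 ∨ n = 6 ∨ n = 7 ∨ n = 8 ∨ n = 9 := by omega
    rcases this with rfl | rfl | rfl | rfl | rfl | rfl | rfl | rfl | rfl
    · exact alloc_of_good (good_one hx)
    · exact alloc_of_good (good_of_chk chk2 hx)
    · exact alloc_of_good (good_of_chk chk3 hx)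
    · exact alloc_of_good (good_of_chk chk4 hx)
    · exact alloc_of_good (good_of_chk chk5 hx)
    · exact alloc_of_good (good_of_chk chk6 hx)
    · exact alloc_of_good (good_of_chk chk7 hx)
    · exact alloc_of_good (good_of_chk chk8 hx)
    · exact alloc_of_good (good_of_chk chk9 hx)

/-! ### The graph is connected and not traceable -/

theorem connected : G.Connected := by
  rw [SimpleGraph.connected_iff_exists_forall_reachable]
  have h : ∀ x : Fin 10, x = 0 ∨ G.Adj 0 x ∨ ∃ y, G.Adj 0 y ∧ G.Adj y x := by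
    have : ∀ x : Fin 10, x = 0 ∨ adjB (0 : Fin 10) x = true ∨
      ∃ y : Fin 10, adjB (0 : Fin 10) y = true ∧ adjB y x = true := by decide +kernel
    exact this
  refine ⟨0, fun x => ?_⟩
  rcases h x with rfl | h | ⟨y, h1, h2⟩
  · exact .refl _
  · exact h.reachable
  · exact h1.reachable.trans h2.reachable

/-- Search for a Hamiltonian path that starts with the vertices in `mask` and is now in `a`. -/
def srch : ℕ → ℕ → ℕ → Bool
  | 0, _, _ => true
  | f + 1, a, mask => (List.range 10).any fun b =>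
      adjB a b && (!(mask.testBit b) && srch f b (mask ||| 2 ^ b))

theorem srch_of : ∀ (l : List (Fin 10)) (a : Fin 10) (mask : ℕ),
    (a :: l).IsChain G.Adj → l.Nodup → (∀ b ∈ l, mask.testBit (b : Fin 10) = false) →
    srch l.length a mask = true
  | [], a, mask, _, _, _ => rfl
  | b :: l, a, mask, hc, hn, hm => by
    rw [List.length_cons, srch, List.any_eq_true]
    have hn' := List.nodup_cons.1 hn
    refine ⟨b, List.mem_range.2 b.2, ?_⟩
    rw [Bool.and_eq_true, Bool.and_eq_true, Bool.not_eq_true']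
    rw [List.isChain_cons_cons] at hc
    refine ⟨hc.1, hm b (by simp), srch_of l b _ hc.2 hn'.2 fun c hcl => ?_⟩
    rw [Nat.testBit_or, hm c (List.mem_cons_of_mem _ hcl), Bool.false_or, Nat.testBit_two_pow]
    simp only [decide_eq_false_iff_not]
    intro h
    exact hn'.1 (by rwa [show b = c from Fin.ext h])

theorem not_traceable : ¬ Traceable G := by
  rintro ⟨a, b, p, hp⟩
  have hn : p.support.Nodup := List.nodup_iff_count_le_one.2 fun x => (hp x).le
  have hlen : p.support.length = 10 := by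
    have := List.toFinset_card_of_nodup hn
    rw [← this]
    have : p.support.toFinset = univ := by
      ext x
      simp only [List.mem_toFinset, mem_univ, iff_true]
      exact List.count_pos_iff.1 (by rw [hp x]; exact one_pos)
    rw [this]
    rfl
  have hc := p.isChain_adj_support
  rcases hs : p.support with _ | ⟨c, l⟩
  · rw [hs] at hlen; simp at hlen
  · rw [hs] at hn hlen hc
    have hn' := List.nodup_cons.1 hn
    have hl : l.length = 9 := by simpa using hlen
    have := srch_of l c (2 ^ (c : ℕ)) hc hn'.2 fun b hb => by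
      rw [Nat.testBit_two_pow]
      simp only [decide_eq_false_iff_not]
      intro h
      exact hn'.1 (by rwa [show c = b from Fin.ext h])
    rw [hl] at this
    have hno : ∀ c : Fin 10, srch 9 c (2 ^ (c : ℕ)) = false := by decide +kernel
    rw [hno c] at this
    exact absurd this (by simp)

end Pool.Agent.Q230.EF
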